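import Mathlib
import Pool.Agent.Lib.MP_3242d6_co.Defs
import Pool.Agent.Lib.MP_3242d6_co.Exact

/-!
# MP_3242d6_co, Q1

Let `q = 2 ^ α`, `F` the field with `q` elements, `d ∣ q - 1`, `H` an additive subgroup of `F` stable
under the `d`-th roots of unity, and `3 ≤ k ≤ q / 2` with `k ≡ 0` or `|H|` modulo `d |H|`.
If no `k`-subset of `F` has stabilizer exactly `S_{d,H}` in `AGL(1, F)`, then `k` is a power of `2`.
We also give the exact list of vanishing cases.

Idea of the proof: a set with stabilizer exactly `S_{d,H}` is a union of `H`-cosets of the points of a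
subset `C` of a complement `V` of `H` (over the field `H'`), and one controls the affine maps
preserving `C` through its power sums.
-/

namespace Pool.Agent.Results.MP_3242d6_co.Main

open Pool.Agent.Lib.MP_3242d6_co

/-- Full answer to Q1, with the exact list of the vanishing cases. -/
theorem result (α : ℕ) (F : Type*) [Field F] [Fintype F] (hF : Fintype.card F = 2 ^ α)
    (d : ℕ) (hd : d ∣ 2 ^ α - 1) (H : AddSubgroup F)
    (hH : ∀ ζ : F, ζ ^ d = 1 → (fun h => ζ * h) '' (H : Set F) = H)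
    (k : ℕ) (hk3 : 3 ≤ k) (hk : 2 * k ≤ 2 ^ α)
    (hmod : k ≡ 0 [MOD d * Nat.card H] ∨ k ≡ Nat.card H [MOD d * Nat.card H]) :
    (N (S d H hH) k = 0 → ∃ r, k = 2 ^ r) ∧
    (N (S d H hH) k = 0 ↔
      (k = Nat.card H ∧ d ≠ Nat.card {x : F // ∀ h ∈ H, x * h ∈ H} - 1) ∨
      (k = (d + 1) * Nat.card H ∧ ∃ b, d + 1 = 2 ^ b)) :=
  main_theorem α F hF d hd H hH k hk3 hk hmod

end Pool.Agent.Results.MP_3242d6_co.Main
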